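import Pool.Agent.MP_df844f_gt.SpecW

/-! Rank 2 orbits in a state and the parity step of the sweep. -/

namespace Pool.Agent.MP_df844f_gt

open PS

namespace Sw

variable {B : Type} [MulAction W B] {o : B} {Y : PS B}

theorem F2_eq_one {a : F2} (h : a ≠ 0) : a = 1 := by revert a; decide

theorem orb2 (hY : Y.State) {t v : S} (h : adj t v) {x y : Y.Om}
    (k : Relation.ReflTransGen (Y.JE {t, v}) x y) :
    y = x ∨ Y.e t x y ∨ Y.e v x y ∨ (∃ q, Y.e t x q ∧ Y.e v q y) ∨ ∃ q, Y.e v x q ∧ Y.e t q y := by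
  induction k with
  | refl => exact Or.inl rfl
  | tail _ k ih =>
    obtain ⟨s, hs, e⟩ := k
    have hs' : s = t ∨ s = v := by simpa using hs
    rcases hs' with rfl | rfl
    · rcases ih with rfl | a | a | ⟨q, a, b⟩ | ⟨q, a, b⟩
      · exact Or.inr (Or.inl e)
      · exact Or.inl (hY.fold e (Y.e_symm a))
      · exact Or.inr (Or.inr (Or.inr (Or.inr ⟨_, a, e⟩)))
      · exact Or.inr (Or.inr (Or.inl (Y.e_symm (hY.close h a b e))))
      · rw [hY.fold e (Y.e_symm b)]; exact Or.inr (Or.inr (Or.inl a))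
    · rcases ih with rfl | a | a | ⟨q, a, b⟩ | ⟨q, a, b⟩
      · exact Or.inr (Or.inr (Or.inl e))
      · exact Or.inr (Or.inr (Or.inr (Or.inl ⟨_, a, e⟩)))
      · exact Or.inl (hY.fold e (Y.e_symm a))
      · rw [hY.fold e (Y.e_symm b)]; exact Or.inr (Or.inl a)
      · exact Or.inr (Or.inl (Y.e_symm (hY.close (adj_symm h) a b e)))

/-- A chamber of the orbit carries the same `t`-face or lies across the `v`-wall. -/
theorem orb_pos (hY : Y.State) {t v : S} (h : adj t v) {x y : Y.Om}
    (k : Relation.ReflTransGen (Y.JE {t, v}) x y) :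
    Y.cell y {t} = Y.cell x {t} ∨ Y.f y = g v • Y.f x ∨ Y.f y = g v • g t • Y.f x := by
  rcases orb2 hY h k with rfl | a | a | ⟨q, a, b⟩ | ⟨q, a, b⟩
  · exact Or.inl rfl
  · exact Or.inl (cell_e (Finset.mem_singleton_self _) a).symm
  · exact Or.inr (Or.inl (Y.e_f a))
  · exact Or.inr (Or.inr (by rw [Y.e_f b, Y.e_f a]))
  · exact Or.inr (Or.inr (by rw [Y.e_f b, Y.e_f a, smul_smul, smul_smul, g_comm h]))

theorem up2 {b c : W} {t v : S} (h : adj t v) (ht : ¬ Desc b c t) (hv : ¬ Desc b c v) :
    d b (g v * (g t * c)) = d b c + 2 := by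
  have h1 : wall t c ∉ Sep b c := fun k => ht (desc_iff.2 k)
  have h2 : wall v (g t * c) ∉ Sep b (g t * c) := by
    rw [wall_adj (adj_symm h), Sep_step_of_not_mem h1, Finset.mem_insert]
    rintro (k | k)
    · exact adj_ne h (wall_inj k).symm
    · exact hv (desc_iff.2 k)
  rw [d_step_of_not_mem h2, d_step_of_not_mem h1]

theorem bd1_cell (x : Y.Om) (J : Finset S) : Y.bd1 (Y.cell x J) =
    ∑ t ∈ Finset.univ.filter (fun t => ∀ s ∈ J, adj s t),
      Finsupp.single (Y.cell x (insert t J)) 1 := rfl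

/-- A second face at each rank 2 cell of a face of a cycle. -/
theorem second {u : Y.Chain} (hu : Y.bd u = 0)
    (hf : ∀ c ∈ u.support, ∃ x s, c = Y.cell x {s}) {x : Y.Om} {t v : S} (h : adj t v)
    (hx : Y.cell x {t} ∈ u.support) :
    ∃ y s, (s = t ∨ s = v) ∧ Y.cell y {s} ∈ u.support ∧ Y.cell y {s} ≠ Y.cell x {t} ∧
      Relation.ReflTransGen (Y.JE {t, v}) x y := by
  have h0 : Y.bd u (Y.cell x (insert v {t})) = 0 := by rw [hu]; rfl
  unfold PS.bd at h0
  rw [Finsupp.linearCombination_apply, Finsupp.sum, Finsupp.finsetSum_apply] at h0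
  have h1 : Y.bd1 (Y.cell x {t}) (Y.cell x (insert v {t})) = 1 := by
    rw [bd1_cell, Finsupp.finsetSum_apply, Finset.sum_eq_single v]
    · simp
    · intro w hw hne
      rw [Finsupp.single_apply, if_neg]
      intro k
      have k1 := (cell_eq_iff.1 k).1
      have : v ∈ insert w ({t} : Finset S) := by rw [k1]; simp
      rcases Finset.mem_insert.1 this with k2 | k2
      · exact hne k2.symm
      · exact adj_ne h (Finset.mem_singleton.1 k2).symm
    · intro k; exact absurd (by simpa using h) k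
  by_contra hn
  rw [Finset.sum_eq_single (Y.cell x {t})] at h0
  · rw [Finsupp.smul_apply, h1, F2_eq_one (Finsupp.mem_support_iff.1 hx)] at h0
    exact absurd h0 (by decide)
  · intro c hc hne
    obtain ⟨y, s, rfl⟩ := hf c hc
    rw [Finsupp.smul_apply, bd1_cell, Finsupp.finsetSum_apply, Finset.sum_eq_zero, smul_zero]
    intro w _
    rw [Finsupp.single_apply, if_neg]
    intro k
    obtain ⟨k1, k2⟩ := cell_eq_iff.1 k.symm
    refine hn ⟨y, s, ?_, hc, hne, ?_⟩
    · have : s ∈ insert v ({t} : Finset S) := by rw [k1]; simp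
      simpa [or_comm] using this
    · rwa [Finset.pair_comm]
  · intro k; exact absurd hx k

/-- A cycle of faces all of which have a corner at height at most `m` above `b0`. -/
structure Ctx (o : B) (Y : PS B) (b0 : W) (u : Y.Chain) (m : ℕ) : Prop where
  st : Y.State
  th : Thick o (2 * m + 6)
  cyc : Y.bd u = 0
  low : ∀ c ∈ u.support, ∃ x s w, c = Y.cell x {s} ∧ (w • o = Y.f x ∨ (g s * w) • o = Y.f x) ∧
    d b0 w ≤ m

variable {b0 : W} {u : Y.Chain} {m : ℕ}

theorem Ctx.eq (h : Ctx o Y b0 u m) {p q : W} (k : p • o = q • o)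
    (hd : d b0 p + d b0 q ≤ 2 * m + 6) : p = q :=
  h.th p q k (by have := d_triangle p b0 q; rw [d_comm p b0] at this; omega)

theorem d_step_le (b w : W) (s : S) : d b (g s * w) ≤ d b w + 1 := by
  have := d_triangle b w (g s * w); rwa [d_g_mul] at this

theorem Ctx.excl (h : Ctx o Y b0 u m) {z : Y.Om} {s : S} (hz : Y.cell z {s} ∈ u.support) {p : W}
    (hp : p • o = Y.f z) (h1 : d b0 p ≤ m + 2) (h2 : m < d b0 p) (h3 : m < d b0 (g s * p)) :
    False := by
  obtain ⟨x, s', w, a, b, c⟩ := h.low _ hz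
  obtain rfl : s = s' := Finset.singleton_injective (cell_eq_iff.1 a).1
  have hw := d_step_le b0 w s
  have key : p • o = w • o ∨ p • o = (g s * w) • o := by
    rcases h.st.cell_one.1 a with rfl | e
    · rcases b with b | b
      · exact Or.inl (hp.trans b.symm)
      · exact Or.inr (hp.trans b.symm)
    · have e1 := Y.e_f (Y.e_symm e)
      rcases b with b | b
      · exact Or.inr (by rw [hp, e1, ← b, mul_smul])
      · exact Or.inl (by rw [hp, e1, ← b, smul_smul, g_mul_g_mul])
  rcases key with k | k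
  · have := h.eq k (by omega); subst this; omega
  · have := h.eq k (by omega); subst this; rw [g_mul_g_mul] at h3; omega

/-- Parity at a rank 2 cell with lower corner of maximal height. -/
theorem Ctx.par (h : Ctx o Y b0 u m) {c : W} (hc : d b0 c = m) {t v : S} (ha : adj t v)
    (ht : ¬ Desc b0 c t) (hv : ¬ Desc b0 c v) {x : Y.Om} (hx : Y.cell x {t} ∈ u.support)
    (hp : c • o = Y.f x ∨ (g t * c) • o = Y.f x) :
    ∃ y, Relation.ReflTransGen (Y.JE {t, v}) x y ∧ Y.cell y {v} ∈ u.support ∧
      (c • o = Y.f y ∨ (g v * c) • o = Y.f y) := by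
  obtain ⟨y, s, hs, h1, h2, h3⟩ := second h.cyc
    (fun c hc => by obtain ⟨x, s, _, a, _⟩ := h.low c hc; exact ⟨x, s, a⟩) ha hx
  have d1 := d_eq_of_not_desc ht
  have d2 := d_eq_of_not_desc hv
  have d3 := up2 ha ht hv
  have d4 := up2 (adj_symm ha) hv ht
  have cm : g v * (g t * c) = g t * (g v * c) := by rw [← mul_assoc, ← mul_assoc, g_comm ha]
  -- the four possible positions of `y`
  have far : Y.f y = g v • Y.f x ∨ Y.f y = g v • g t • Y.f x →
      (g v * c) • o = Y.f y ∨ (g t * (g v * c)) • o = Y.f y := by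
    rintro (k | k) <;> rcases hp with q | q
    · exact Or.inl (by rw [k, ← q, mul_smul])
    · exact Or.inr (by rw [k, ← q, ← cm, mul_smul (g v)])
    · exact Or.inr (by rw [k, ← q, ← cm, mul_smul, mul_smul])
    · exact Or.inl (by rw [k, ← q, smul_smul (g t), g_mul_g_mul, mul_smul])
  rcases hs with rfl | rfl
  · exfalso
    rcases orb_pos h.st ha h3 with k | k
    · exact h2 k
    · rcases far k with q | q
      · exact h.excl h1 q (by omega) (by omega) (by omega)
      · exact h.excl h1 q (by omega) (by omega) (by rw [g_mul_g_mul]; omega)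
  · refine ⟨y, h3, h1, ?_⟩
    rcases orb_pos h.st ha h3 with k | k
    · have near : c • o = Y.f y ∨ (g t * c) • o = Y.f y := by
        rcases h.st.cell_one.1 k.symm with rfl | e
        · exact hp
        · rcases hp with q | q
          · exact Or.inr (by rw [Y.e_f e, ← q, mul_smul])
          · exact Or.inl (by rw [Y.e_f e, ← q, smul_smul, g_mul_g_mul])
      rcases near with q | q
      · exact Or.inl q
      · exact (h.excl h1 q (by omega) (by omega) (by omega)).elim
    · rcases far k with q | q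
      · exact Or.inr q
      · exact (h.excl h1 q (by omega) (by omega) (by rw [← cm, g_mul_g_mul]; omega)).elim

end Sw

end Pool.Agent.MP_df844f_gt
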